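import Pool.Agent.W495.TB.Stms

set_option autoImplicit false

namespace Pool.Agent.W918.TB

open NumberField Pool.Agent.H204R3.CM Pool.Agent.W547.KB Pool.Agent.W547.LD Module
  Pool.Agent.W495.TA

noncomputable section

variable {G : Type} [Group G]

/-- same orbit under right translations by `N` -/
def rel (N : Subgroup G) : Setoid (Set G) where
  r S S' := ∃ τ ∈ N, tr τ S = S'
  iseqv :=
    { refl := fun S => ⟨1, N.one_mem, tr_one S⟩
      symm := by
        rintro S S' ⟨τ, hτ, rfl⟩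
        exact ⟨τ⁻¹, N.inv_mem hτ, tr_inv_tr τ S⟩
      trans := by
        rintro S S' S'' ⟨τ, hτ, rfl⟩ ⟨τ', hτ', rfl⟩
        exact ⟨τ' * τ, N.mul_mem hτ' hτ, (tr_tr τ' τ S).symm⟩ }

/-- representative of the orbit -/
def rep (N : Subgroup G) (S : Set G) : Set G := (Quotient.mk (rel N) S).out

theorem rep_rel (N : Subgroup G) (S : Set G) : ∃ τ ∈ N, tr τ (rep N S) = S :=
  Quotient.exact (s := rel N) (Quotient.out_eq (Quotient.mk (rel N) S))

theorem rep_eq (N : Subgroup G) {S S' : Set G} (h : ∃ τ ∈ N, tr τ S = S') : rep N S = rep N S' := by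
  have : Quotient.mk (rel N) S = Quotient.mk (rel N) S' := Quotient.sound (s := rel N) h
  unfold rep
  rw [this]

theorem rep_rep (N : Subgroup G) (S : Set G) : rep N (rep N S) = rep N S :=
  rep_eq N (rep_rel N S)

theorem orb_aux (N : Subgroup G) (κ : Type) [Finite κ] (y : κ → Set G)
    (hy : ∀ τ ∈ N, ∃ e : κ → κ, Function.Injective e ∧ ∀ k, y (e k) = tr τ (y k)) :
    ∃ (Q : Type) (_ : Fintype Q) (x : Q → Set G)
      (f : κ ≃ (Σ q : Q, {S : Set G // ∃ τ ∈ N, tr τ (x q) = S})),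
      (∀ q, ∃ k, x q = y k) ∧ ∀ k, (f k).2.1 = y k := by
  classical
  have hemb : ∀ S S' : Set G, (∃ τ ∈ N, tr τ S = S') →
      Nonempty ({k // y k = S} ↪ {k // y k = S'}) := by
    rintro S S' ⟨τ, hτ, rfl⟩
    obtain ⟨e, he, hk⟩ := hy τ hτ
    refine ⟨⟨fun k => ⟨e k.1, by rw [hk, k.2]⟩, ?_⟩⟩
    intro a b hab
    exact Subtype.ext (he (congrArg Subtype.val hab))
  have hb : ∀ S : Set G, Nonempty ({k // y k = S} ≃ {k // y k = rep N S}) := by
    intro S
    obtain ⟨a⟩ := hemb _ _ ((rel N).symm (rep_rel N S))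
    obtain ⟨b⟩ := hemb _ _ (rep_rel N S)
    exact Function.Embedding.antisymm a b
  obtain ⟨b⟩ : Nonempty (∀ S : Set G, {k // y k = S} ≃ {k // y k = rep N S}) :=
    ⟨fun S => (hb S).some⟩
  have hcong : ∀ (S : Set G) (k : κ) (hk : y k = S),
      ((b (y k)) ⟨k, rfl⟩).1 = ((b S) ⟨k, hk⟩).1 := by
    intro S k hk
    subst hk
    rfl
  let x : {k : κ // y k = rep N (y k)} → Set G := fun q => y q.1
  let F : κ → (Σ q : {k : κ // y k = rep N (y k)}, {S : Set G // ∃ τ ∈ N, tr τ (x q) = S}) :=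
    fun k => ⟨⟨((b (y k)) ⟨k, rfl⟩).1, by
        rw [((b (y k)) ⟨k, rfl⟩).2, rep_rep]⟩, ⟨y k, by
        change ∃ τ ∈ N, tr τ (y ((b (y k)) ⟨k, rfl⟩).1) = y k
        rw [((b (y k)) ⟨k, rfl⟩).2]
        exact rep_rel N (y k)⟩⟩
  have hext : ∀ u v : (Σ q : {k : κ // y k = rep N (y k)},
      {S : Set G // ∃ τ ∈ N, tr τ (x q) = S}), u.1.1 = v.1.1 → u.2.1 = v.2.1 → u = v := by
    rintro ⟨⟨q, hq⟩, ⟨S, hS⟩⟩ ⟨⟨q', hq'⟩, ⟨S', hS'⟩⟩ h1 h2
    simp only at h1 h2
    subst h1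
    subst h2
    rfl
  have hinj : Function.Injective F := by
    intro k k' h
    have h1 : ((b (y k)) ⟨k, rfl⟩).1 = ((b (y k')) ⟨k', rfl⟩).1 :=
      congrArg (fun u => u.1.1) h
    have h2 : y k = y k' := congrArg (fun u => u.2.1) h
    rw [hcong (y k') k h2] at h1
    have h3 := (b (y k')).injective (Subtype.ext h1)
    exact congrArg Subtype.val h3
  have hsurj : Function.Surjective F := by
    intro u
    obtain ⟨q, ⟨S, hS⟩⟩ := u
    have hq : y q.1 = rep N S := by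
      rw [q.2]
      exact rep_eq N hS
    set k := ((b S).symm ⟨q.1, hq⟩) with hk
    refine ⟨k.1, hext _ _ ?_ k.2⟩
    change ((b (y k.1)) ⟨k.1, rfl⟩).1 = q.1
    rw [hcong S k.1 k.2]
    have : (⟨k.1, k.2⟩ : {k // y k = S}) = (b S).symm ⟨q.1, hq⟩ := rfl
    rw [this, Equiv.apply_symm_apply]
  exact ⟨{k : κ // y k = rep N (y k)}, Fintype.ofFinite _, x, Equiv.ofBijective F ⟨hinj, hsurj⟩,
    fun q => ⟨q.1, rfl⟩, fun k => rfl⟩

theorem orb : Pool.Agent.W495.TB.S_orb := by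
  intro L _ _ _ _ N κ _ y hy
  exact orb_aux N κ y hy

end

end Pool.Agent.W918.TB
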